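import Pool.Agent.U282.PL.Exact

/-!
# The exact index of two nondegenerate systems of classes on the varieties `X^n × Z`
-/

set_option linter.unusedSectionVars false
set_option autoImplicit false

open CategoryTheory AlgebraicGeometry Filter Topology

open scoped ENNReal

universe u v

namespace Pool.Agent.U282.PL

open Module Polynomial
open Pool.Agent.H914 Pool.Agent.H914.VarClass Pool.Agent.H914.VarClass.Obj
  Pool.Agent.H914.WeilCohomology Pool.Agent.H281R3.HT Pool.Agent.Y133.Half.Sys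
open Pool.Agent.U226.RG (finrank_Op nontrivial_pw finrank_C_pos a_eq_finrank nontrivial_prod
  img img_mono ratio_eq_ofReal fixed_law)
open Pool.Agent.Y133.Half (Sys pw pwAdd finrank_pw prodComm prodCongr)

variable {k : Type u} [Field k] {𝒱 : VarClass k} {ops : CycleOps 𝒱}
  {W : WeilCohomology.{u, v} ops} {X Y Z P Q N : 𝒱.Obj} {S T : Sys W}

lemma enn_of_real {t a : ℕ → ℕ} (ha : ∀ n, 0 < a n) {v : ℕ}
    (h : Tendsto (fun n => (t n : ℝ) / a n) atTop (𝓝 (v : ℝ))) :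
    Tendsto (fun n => (t n : ℝ≥0∞) / a n) atTop (𝓝 (v : ℝ≥0∞)) := by
  have h1 := (ENNReal.tendsto_ofReal h).congr fun n => (ratio_eq_ofReal (t := t n) (ha n)).symm
  rwa [ENNReal.ofReal_natCast] at h1

lemma img_pos [Nontrivial (W.H X)] [Nontrivial (W.H Z)] (T : Sys W) :
    0 < finrank W.K (img T X Z) := by
  rw [Nat.pos_iff_ne_zero]
  intro h
  have h0 : img T X Z = ⊥ := Submodule.finrank_eq_zero.1 h
  have h1 : T.Op X Z = ⊥ := by
    rw [eq_bot_iff]
    intro g hg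
    rw [Submodule.mem_bot]
    apply LinearMap.ext
    intro a
    have h2 : g a ∈ img T X Z :=
      Submodule.mem_iSup_of_mem 0 (Submodule.mem_iSup_of_mem ⟨g, hg⟩ ⟨a, rfl⟩)
    rw [h0, Submodule.mem_bot] at h2
    exact h2
  have h2 := finrank_Op T X Z
  rw [h1, finrank_bot] at h2
  have : Nontrivial (W.H (X.prod Z)) := nontrivial_prod
  have h3 := finrank_C_pos (Z := X.prod Z) T
  omega

/-- The number of classes on `X^n × Z` in terms of the number of classes on `X^n`, for a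
nondegenerate system. -/
theorem tendsto_img [Nontrivial (W.H X)] (hT : ∀ V, Nondeg T V) (Z : 𝒱.Obj) :
    Tendsto (fun n => (finrank W.K (T.C ((pw X n).prod Z)) : ℝ) / finrank W.K (T.C (pw X n)))
      atTop (𝓝 (finrank W.K (img T X Z) : ℝ)) := by
  have h := exact_index (X := X) hT Z (fun n => T.Op (pw X n) Z) (fun n => le_rfl)
    (fun m n u hu g hg => Op.comp hg hu)
  simp only [finrank_Op] at h
  exact h

/-- **The exact index law for two nondegenerate systems.** -/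
theorem pair_law [Nontrivial (W.H X)] [Nontrivial (W.H Z)] (hS : ∀ V, Nondeg S V)
    (hT : ∀ V, Nondeg T V) (hST : ∀ V, S.C V ≤ T.C V) :
    ∃ I : ℕ∞, 1 ≤ I ∧
      Tendsto (fun n => (finrank W.K (T.C (pw X n)) : ℝ≥0∞) / finrank W.K (S.C (pw X n))) atTop
        (𝓝 (I : ℝ≥0∞)) ∧
      (I = 1 ↔ ∀ n, T.C (pw X n) = S.C (pw X n)) ∧
      Tendsto (fun n => (finrank W.K (T.C ((pw X n).prod Z)) : ℝ≥0∞) /
        finrank W.K (S.C ((pw X n).prod Z))) atTop
        (𝓝 (((I * finrank W.K (img T X Z) : ℕ∞) : ℝ≥0∞) / finrank W.K (img S X Z))) ∧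
      (I * finrank W.K (img T X Z) = finrank W.K (img S X Z) ↔
        ∀ n, T.C ((pw X n).prod Z) = S.C ((pw X n).prod Z)) := by
  set vS := finrank W.K (img S X Z) with hvS
  set vT := finrank W.K (img T X Z) with hvT
  have hvS0 : 0 < vS := img_pos S
  have hvT0 : 0 < vT := img_pos T
  obtain ⟨I, hI1, hI, -, hIiff⟩ := stab_index (X := X) (fun n => hS (pw X n))
    (stab_of_le (S := S) (T := T) hST) (fun n => hST _)
  have hSpos : ∀ n, 0 < finrank W.K (S.C (pw X n)) := finrank_pos' S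
  have hTpos : ∀ n, 0 < finrank W.K (T.C (pw X n)) := finrank_pos' T
  have hSZ : ∀ n, 0 < finrank W.K (S.C ((pw X n).prod Z)) := by
    intro n
    have := nontrivial_pw (W := W) (X := X) n
    have : Nontrivial (W.H ((pw X n).prod Z)) := nontrivial_prod
    exact finrank_C_pos S
  have h1 : Tendsto (fun n => (finrank W.K (S.C ((pw X n).prod Z)) : ℝ≥0∞) /
      finrank W.K (S.C (pw X n))) atTop (𝓝 (vS : ℝ≥0∞)) := enn_of_real hSpos (tendsto_img hS Z)
  have h2 : Tendsto (fun n => (finrank W.K (T.C ((pw X n).prod Z)) : ℝ≥0∞) /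
      finrank W.K (T.C (pw X n))) atTop (𝓝 (vT : ℝ≥0∞)) := enn_of_real hTpos (tendsto_img hT Z)
  have hI0 : ((I : ℕ∞) : ℝ≥0∞) ≠ 0 := by
    have : (1 : ℝ≥0∞) ≤ I := by exact_mod_cast hI1
    exact (lt_of_lt_of_le one_pos this).ne'
  have hv0 : ((vT : ℕ) : ℝ≥0∞) ≠ 0 := by exact_mod_cast hvT0.ne'
  have hw0 : ((vS : ℕ) : ℝ≥0∞) ≠ 0 := by exact_mod_cast hvS0.ne'
  have hwt : ((vS : ℕ) : ℝ≥0∞) ≠ ⊤ := ENNReal.natCast_ne_top _
  have h3 := ENNReal.Tendsto.mul hI (Or.inl hI0) h2 (Or.inl hv0)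
  have hIv0 : ((I : ℕ∞) : ℝ≥0∞) * (vT : ℝ≥0∞) ≠ 0 := mul_ne_zero hI0 hv0
  have h4 := ENNReal.Tendsto.div h3 (Or.inl hIv0) h1 (Or.inl hwt)
  have e : ∀ n, (finrank W.K (T.C (pw X n)) : ℝ≥0∞) / finrank W.K (S.C (pw X n)) *
      ((finrank W.K (T.C ((pw X n).prod Z)) : ℝ≥0∞) / finrank W.K (T.C (pw X n))) /
      ((finrank W.K (S.C ((pw X n).prod Z)) : ℝ≥0∞) / finrank W.K (S.C (pw X n))) =
      (finrank W.K (T.C ((pw X n).prod Z)) : ℝ≥0∞) / finrank W.K (S.C ((pw X n).prod Z)) := by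
    intro n
    have ht0 : ((finrank W.K (T.C (pw X n)) : ℕ) : ℝ≥0∞) ≠ 0 := by exact_mod_cast (hTpos n).ne'
    have htt : ((finrank W.K (T.C (pw X n)) : ℕ) : ℝ≥0∞) ≠ ⊤ := ENNReal.natCast_ne_top _
    have hs0 : ((finrank W.K (S.C (pw X n)) : ℕ) : ℝ≥0∞) ≠ 0 := by exact_mod_cast (hSpos n).ne'
    have hst : ((finrank W.K (S.C (pw X n)) : ℕ) : ℝ≥0∞) ≠ ⊤ := ENNReal.natCast_ne_top _
    have hz0 : ((finrank W.K (S.C ((pw X n).prod Z)) : ℕ) : ℝ≥0∞) ≠ 0 := by
      exact_mod_cast (hSZ n).ne'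
    have hzt : ((finrank W.K (S.C ((pw X n).prod Z)) : ℕ) : ℝ≥0∞) ≠ ⊤ :=
      ENNReal.natCast_ne_top _
    generalize ((finrank W.K (T.C (pw X n)) : ℕ) : ℝ≥0∞) = t at *
    generalize ((finrank W.K (S.C (pw X n)) : ℕ) : ℝ≥0∞) = s at *
    generalize ((finrank W.K (T.C ((pw X n).prod Z)) : ℕ) : ℝ≥0∞) = t' at *
    generalize ((finrank W.K (S.C ((pw X n).prod Z)) : ℕ) : ℝ≥0∞) = s' at *
    rw [div_eq_mul_inv (t / s * (t' / t)), ENNReal.inv_div (Or.inl hst) (Or.inl hs0)]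
    simp only [div_eq_mul_inv]
    calc t * s⁻¹ * (t' * t⁻¹) * (s * s'⁻¹) = (t * t⁻¹) * (s * s⁻¹) * (t' * s'⁻¹) := by ring
      _ = t' * s'⁻¹ := by
        rw [ENNReal.mul_inv_cancel ht0 htt, ENNReal.mul_inv_cancel hs0 hst, one_mul, one_mul]
  have h5 : Tendsto (fun n => (finrank W.K (T.C ((pw X n).prod Z)) : ℝ≥0∞) /
      finrank W.K (S.C ((pw X n).prod Z))) atTop
      (𝓝 (((I * vT : ℕ∞) : ℝ≥0∞) / vS)) := by
    have h6 := h4.congr e
    have h7 : ((I * vT : ℕ∞) : ℝ≥0∞) = (I : ℝ≥0∞) * (vT : ℝ≥0∞) := by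
      rw [ENat.toENNReal_mul, ENat.toENNReal_coe]
    rw [h7]
    exact h6
  refine ⟨I, hI1, hI, hIiff, h5, ?_, ?_⟩
  · intro hEq
    rcases fixed_law (S := S) (T := T) hST X Z with h | h
    · exact fun n => (h n).1.symm
    exfalso
    rw [hEq, ENat.toENNReal_coe, ENNReal.div_self hw0 hwt] at h5
    have hp : (0 : ℝ) < (finrank W.K (W.H Z) : ℝ) + 1 := by positivity
    obtain ⟨n₀, hn₀⟩ := h (1 / (2 * ((finrank W.K (W.H Z) : ℝ) + 1))) (by positivity)
    set c : ℝ := 1 - 1 / (2 * ((finrank W.K (W.H Z) : ℝ) + 1)) with hc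
    have hc1 : c < 1 := by
      rw [hc]
      have : 0 < 1 / (2 * ((finrank W.K (W.H Z) : ℝ) + 1)) := by positivity
      linarith
    have hc0 : 0 < c := by
      rw [hc, sub_pos, div_lt_one (by positivity)]
      have : (0 : ℝ) ≤ finrank W.K (W.H Z) := Nat.cast_nonneg _
      linarith
    have h8 : ∀ n ≥ n₀, (1 / c) ≤ (finrank W.K (T.C ((pw X n).prod Z)) : ℝ) /
        finrank W.K (S.C ((pw X n).prod Z)) := by
      intro n hn
      have h9 := hn₀ n hn
      have h10 : (1 - 1 / ((finrank W.K (W.H Z) : ℝ) + 1) +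
          1 / (2 * ((finrank W.K (W.H Z) : ℝ) + 1))) = c := by
        rw [hc]; field_simp; ring
      rw [a_eq_finrank (hS _), h10] at h9
      rw [div_le_div_iff₀ hc0 (by exact_mod_cast hSZ n), one_mul, mul_comm]
      exact h9
    have h9 : Tendsto (fun n => (finrank W.K (T.C ((pw X n).prod Z)) : ℝ) /
        finrank W.K (S.C ((pw X n).prod Z))) atTop (𝓝 (1 : ℝ)) := by
      have h10 := (ENNReal.tendsto_toReal ENNReal.one_ne_top).comp h5
      rw [ENNReal.toReal_one] at h10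
      refine h10.congr fun n => ?_
      simp [ENNReal.toReal_div]
    have h10 : 1 / c ≤ 1 := ge_of_tendsto h9 (eventually_atTop.2 ⟨n₀, h8⟩)
    rw [div_le_one hc0] at h10
    linarith
  · intro hall
    have h6 : ∀ n, (finrank W.K (T.C ((pw X n).prod Z)) : ℝ≥0∞) /
        finrank W.K (S.C ((pw X n).prod Z)) = 1 := by
      intro n
      rw [hall n]
      exact ENNReal.div_self (by exact_mod_cast (hSZ n).ne') (ENNReal.natCast_ne_top _)
    simp only [h6] at h5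
    have h7 := tendsto_nhds_unique h5 tendsto_const_nhds
    have h8 : ((I * vT : ℕ∞) : ℝ≥0∞) = ((vS : ℕ∞) : ℝ≥0∞) := by
      rw [ENat.toENNReal_coe]
      exact (ENNReal.div_eq_one_iff hw0 hwt).1 h7
    exact ENat.toENNReal_inj.1 h8

end Pool.Agent.U282.PL
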