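import Pool.Agent.Y121.AHS.FDefs

/-!
# The images of Hodge and absolutely Hodge correspondences: definitions
-/

open CategoryTheory AlgebraicGeometry

open scoped ENNReal

universe u

namespace Pool.Agent.U282.PL

open Pool.Agent.H914 Pool.Agent.H914.VarClass Pool.Agent.H914.VarClass.Obj
  Pool.Agent.H914.WeilCohomology
open Pool.Agent.Y133.Half (pw)
open Pool.Agent.Y121.AHS

variable {k : Type u} [Field k] {𝒱 : VarClass k} {ops : CycleOps 𝒱}

/-- The quotients `t n / s n` converge to `N / d`, an element of `[0, ∞]`. -/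
def HasRationalIndex (t s : ℕ → ℕ) (N : ℕ∞) (d : ℕ) : Prop :=
  Filter.Tendsto (fun n => (t n : ℝ≥0∞) / s n) Filter.atTop (nhds ((N : ℝ≥0∞) / d))

/-- The images `pr₂_* (z · pr₁^* a)` in the cohomology of `Z` of all cohomology classes `a` on the
powers of `X` under the correspondences given by Hodge classes `z` on the products `X^n × Z`. -/
def hodgeImages (T : HodgeTheory ops) (X Z : 𝒱.Obj) : Set (T.W.H Z) :=
  {y | ∃ n j z, IsHodge T ((pw X n).prod Z) j z ∧
    ∃ a, transfer (T.W.map (fst (pw X n) Z)) (T.W.push (snd (pw X n) Z)) z a = y}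

/-- The same for the absolutely Hodge classes `z`. -/
def absImages {T : HodgeTheory ops} (D : Full.Conjugates T) (X Z : 𝒱.Obj) : Set (T.W.H Z) :=
  {y | ∃ n j z, Full.IsAbsHodge D ((pw X n).prod Z) j z ∧
    ∃ a, transfer (T.W.map (fst (pw X n) Z)) (T.W.push (snd (pw X n) Z)) z a = y}

/-- The dimension of the subspace of the cohomology of `Z` spanned by the images of the Hodge
correspondences from the powers of `X`. -/
noncomputable def hodgePart (T : HodgeTheory ops) (X Z : 𝒱.Obj) : ℕ :=
  Set.finrank T.W.K (hodgeImages T X Z)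

/-- The dimension of the subspace of the cohomology of `Z` spanned by the images of the absolutely
Hodge correspondences from the powers of `X`. -/
noncomputable def absPart {T : HodgeTheory ops} (D : Full.Conjugates T) (X Z : 𝒱.Obj) : ℕ :=
  Set.finrank T.W.K (absImages D X Z)

/-- All Hodge classes on `Y` are absolutely Hodge. -/
def AllAbs {T : HodgeTheory ops} (D : Full.Conjugates T) (Y : 𝒱.Obj) : Prop :=
  ∀ j c, IsHodge T Y j c → Full.IsAbsHodge D Y j c

end Pool.Agent.U282.PL
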