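import Pool.Agent.U282.PL.Pred
import Pool.Agent.U282.PL.AbsDefs
import Pool.Agent.Y121.AHS.Law

/-!
# Hodge classes and absolutely Hodge classes on the varieties `X^n × Z`
-/

set_option linter.unusedSectionVars false
set_option autoImplicit false

open CategoryTheory AlgebraicGeometry Filter Topology

open scoped ENNReal

universe u

namespace Pool.Agent.U282.PL

open Module
open Pool.Agent.H914 Pool.Agent.H914.VarClass Pool.Agent.H914.VarClass.Obj
  Pool.Agent.H914.WeilCohomology
open Pool.Agent.Y121 Pool.Agent.Y121.AHS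
open Pool.Agent.U226.RG (predImage)
open Pool.Agent.Y133.Half (pw ClassPred)

variable {k : Type u} [Field k] {𝒱 : VarClass k} {ops : CycleOps 𝒱}
  {T : HodgeTheory ops} {D : Full.Conjugates T} {X Z : 𝒱.Obj}

lemma hodgePart_eq : hodgePart T X Z =
    finrank (toH T).W.K (predImage (AH.hodgePred (toH T)) X Z) := by
  have h : hodgeImages T X Z = {y | ∃ n j, ∃ c, (AH.hodgePred (toH T)).P ((pw X n).prod Z) j c ∧
    ∃ a : (toH T).W.H (pw X n), y = (toH T).W.corr c a} := by
    ext y
    constructor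
    · rintro ⟨n, j, z, hz, a, rfl⟩
      exact ⟨n, j, z, hz, a, rfl⟩
    · rintro ⟨n, j, z, hz, a, rfl⟩
      exact ⟨n, j, z, hz, a, rfl⟩
  exact congrArg (fun s => Set.finrank T.W.K s) h

lemma absPart_eq : absPart D X Z =
    finrank (toH T).W.K (predImage (AH.absPred (Full.toD D)) X Z) := by
  have h : absImages D X Z = {y | ∃ n j, ∃ c, (AH.absPred (Full.toD D)).P ((pw X n).prod Z) j c ∧
    ∃ a : (toH T).W.H (pw X n), y = (toH T).W.corr c a} := by
    ext y
    constructor
    · rintro ⟨n, j, z, hz, a, rfl⟩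
      exact ⟨n, j, z, Full.isAbsHodge_iff.2 hz, a, rfl⟩
    · rintro ⟨n, j, z, hz, a, rfl⟩
      exact ⟨n, j, z, Full.isAbsHodge_iff.1 hz, a, rfl⟩
  exact congrArg (fun s => Set.finrank T.W.K s) h

/-- **The exact index law for the Hodge classes and the absolutely Hodge classes.** -/
theorem abs_law (T : HodgeTheory ops) (D : Full.Conjugates T) (X Z : 𝒱.Obj) [Nontrivial (T.W.H X)]
    [Nontrivial (T.W.H Z)] :
    0 < absPart D X Z ∧ absPart D X Z ≤ hodgePart T X Z ∧
    ∃ I : ℕ∞, 1 ≤ I ∧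
      Full.HasIndex (fun n => hodgeDim T (pw X n)) (fun n => Full.absDim D (pw X n)) I ∧
      (I = 1 ↔ ∀ n, AllAbs D (pw X n)) ∧
      HasRationalIndex (fun n => hodgeDim T ((pw X n).prod Z))
        (fun n => Full.absDim D ((pw X n).prod Z)) (I * hodgePart T X Z) (absPart D X Z) ∧
      (I * hodgePart T X Z = absPart D X Z ↔ ∀ n, AllAbs D ((pw X n).prod Z)) := by
  have hntX : Nontrivial ((toH T).W.H X) := ‹Nontrivial (T.W.H X)›
  have hntZ : Nontrivial ((toH T).W.H Z) := ‹Nontrivial (T.W.H Z)›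
  obtain ⟨h1, h2, I, h3, h4, h5, h6, h7⟩ := pred_pair (X := X) (Z := Z)
    (Q := AH.absPred (Full.toD D)) (R := AH.hodgePred (toH T))
    (fun V => AH.abs_nondeg (Full.toD D) V) (fun V x hx h => AH.hodge_nondeg hx h)
    (fun h => h.1)
  have e : ∀ V : 𝒱.Obj, (∀ j c, (AH.hodgePred (toH T)).P V j c → (AH.absPred (Full.toD D)).P V j c) ↔
      AllAbs D V := fun V => forall_congr' fun j => forall_congr' fun c =>
        imp_congr_right fun _ => Full.isAbsHodge_iff
  have e1 : ∀ V : 𝒱.Obj, finrank (toH T).W.K ((AH.absPred (Full.toD D)).sys.C V) = Full.absDim D V :=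
    fun V => Full.absDim_eq
  rw [hodgePart_eq, absPart_eq]
  refine ⟨h1, h2, I, h3, ?_, ?_, ?_, ?_⟩
  · simp only [e1] at h4
    exact h4
  · rw [h5]
    exact forall_congr' fun n => e _
  · simp only [e1] at h6
    exact h6
  · rw [h7]
    exact forall_congr' fun n => e _

end Pool.Agent.U282.PL
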