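import Pool.Agent.U282.PL.Ratio

/-!
# The exact index of a module over a nondegenerate system of classes

The proofs are those of `Pool.Agent.U226.RG.Exact` (helper226), where the system is algebraic on the
powers of `X`; this assumption is replaced by `tendsto_sys`.
-/

set_option linter.unusedSectionVars false
set_option autoImplicit false

open CategoryTheory AlgebraicGeometry Filter Topology

universe u v

namespace Pool.Agent.U282.PL

open Module Polynomial
open Pool.Agent.H914 Pool.Agent.H914.VarClass Pool.Agent.H914.VarClass.Obj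
  Pool.Agent.H914.WeilCohomology Pool.Agent.H281R3.HT Pool.Agent.Y133.Half.Sys
open Pool.Agent.U226.RG (HasIndex finrank_Op nontrivial_pw finrank_C_pos tendsto_shift
  a_eq_finrank nontrivial_prod dd dd_le_rank dd_compl dd_le_of dd_add post)
open Pool.Agent.Y133.Half (Sys pw pwAdd finrank_pw prodComm prodCongr exists_fit)

variable {k : Type u} [Field k] {𝒱 : VarClass k} {ops : CycleOps 𝒱}
  {W : WeilCohomology.{u, v} ops} {X Y Z P Q N : 𝒱.Obj} {T : Sys W}

section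

variable [Nontrivial (W.H X)] (hT : ∀ V, Nondeg T V)

include hT

/-- The upper bound. -/
lemma dd_up {f : Module.End W.K (W.H Z)} (hf : f ∈ T.Op Z Z) (hff : f ∘ₗ f = f) {ε : ℝ}
    (hε : 0 < ε) : ∃ n₀ : ℕ, ∀ n ≥ n₀, (dd T f (pw X n) : ℝ) ≤
      (finrank W.K (LinearMap.range f) + ε) * finrank W.K (T.C (pw X n)) := by
  set b := finrank W.K (W.H X) with hb
  set r := finrank W.K (LinearMap.range f) with hr
  have hX : 0 < b := Module.finrank_pos
  have hb0 : (0 : ℝ) < b := by exact_mod_cast hX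
  have htpos : ∀ n, 0 < finrank W.K (T.C (pw X n)) := by
    intro n
    have := nontrivial_pw (W := W) (X := X) n
    exact finrank_C_pos T
  have hR := tendsto_sys (fun n => hT (pw X n))
  have key : ∀ j : ℕ, ∃ N₀ : ℕ, ∀ N ≥ N₀, (r : ℝ) * b ^ j * finrank W.K (T.C (pw X N)) ≤
      (r + ε) * finrank W.K (T.C (pw X (N + j))) := by
    intro j
    have h1 := tendsto_shift htpos hR j
    have h2 : Tendsto (fun n => (r + ε) * ((finrank W.K (T.C (pw X (n + j))) : ℝ) /
        finrank W.K (T.C (pw X n)))) atTop (𝓝 ((r + ε) * (b : ℝ) ^ j)) := h1.const_mul _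
    have h3 : (r : ℝ) * b ^ j < (r + ε) * (b : ℝ) ^ j :=
      mul_lt_mul_of_pos_right (by linarith) (by positivity)
    obtain ⟨N₀, hN₀⟩ := eventually_atTop.1 (h2.eventually (lt_mem_nhds h3))
    refine ⟨N₀, fun N hN => ?_⟩
    have h4 := hN₀ N hN
    have h5 : (0 : ℝ) < finrank W.K (T.C (pw X N)) := by exact_mod_cast htpos N
    rw [← mul_div_assoc, lt_div_iff₀ h5] at h4
    exact h4.le
  obtain ⟨N₁, h₁⟩ := key 1
  obtain ⟨N₂, h₂⟩ := key 2
  refine ⟨N₁ + N₂ + 4, fun n hn => ?_⟩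
  obtain ⟨m₀, l, hm₀, hl'⟩ : ∃ m₀ l, m₀ ≤ 1 ∧ n = m₀ + (l + l + 1) + 1 :=
    ⟨n % 2, (n - n % 2 - 2) / 2, by omega, by omega⟩
  let φ : (pw X m₀).prod ((pw X l).prod (pw X l)) ≅ pw X n :=
    prodCongr (Iso.refl _) (pwAdd X l l) ≪≫ pwAdd X m₀ (l + l + 1) ≪≫
      eqToIso (congrArg (pw X) hl'.symm)
  have h3 := dd_le_rank hT hf hff (pw X m₀) (pw X l) φ
  rw [T.a_iso (pwAdd X l l), a_eq_finrank (hT _), finrank_pw] at h3
  have h4 : (dd T f (pw X n) : ℝ) ≤ (r : ℝ) * b ^ (m₀ + 1) *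
      finrank W.K (T.C (pw X (l + l + 1))) := by exact_mod_cast h3
  refine h4.trans ?_
  have hn' : n = (l + l + 1) + (m₀ + 1) := by omega
  rw [hn']
  interval_cases m₀
  · exact h₁ _ (by omega)
  · exact h₂ _ (by omega)

/-- The lower bound for an idempotent on a power. -/
lemma dd_low_pw {m : ℕ} {e : Module.End W.K (W.H (pw X m))} (he : e ∈ T.Op (pw X m) (pw X m))
    (hee : e ∘ₗ e = e) {ε : ℝ} (hε : 0 < ε) : ∃ n₀ : ℕ, ∀ n ≥ n₀,
      (finrank W.K (LinearMap.range e) - ε) * finrank W.K (T.C (pw X n)) ≤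
        (dd T e (pw X n) : ℝ) := by
  set b := finrank W.K (W.H X) with hb
  have htpos : ∀ n, 0 < finrank W.K (T.C (pw X n)) := by
    intro n
    have := nontrivial_pw (W := W) (X := X) n
    exact finrank_C_pos T
  have hR := tendsto_sys (fun n => hT (pw X n))
  have h1 := tendsto_shift htpos hR (m + 1)
  have h2 : (b : ℝ) ^ (m + 1) - ε / 2 < (b : ℝ) ^ (m + 1) := by linarith
  obtain ⟨N₁, hN₁⟩ := eventually_atTop.1 (h1.eventually (lt_mem_nhds h2))
  obtain ⟨hc, hc'⟩ := finrank_compl hee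
  obtain ⟨N₂, hN₂⟩ := dd_up (X := X) (Z := pw X m) hT (f := (1 - e : Module.End W.K _))
    (Submodule.sub_mem _ Op.id he) hc (half_pos hε)
  refine ⟨N₁ + N₂, fun n hn => ?_⟩
  have h3 := hN₁ n (by omega)
  have h4 := hN₂ n (by omega)
  have h5 : (0 : ℝ) < finrank W.K (T.C (pw X n)) := by exact_mod_cast htpos n
  rw [lt_div_iff₀ h5] at h3
  have h6 := dd_compl he hee (pw X n)
  rw [T.finrank_C_iso (pwAdd X n m)] at h6
  have h7 : (dd T e (pw X n) : ℝ) + dd T (1 - e) (pw X n) =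
      finrank W.K (T.C (pw X (n + (m + 1)))) := by exact_mod_cast h6
  have h8 : (finrank W.K (LinearMap.range (1 - e)) : ℝ) + finrank W.K (LinearMap.range e) =
      (b : ℝ) ^ (m + 1) := by
    rw [finrank_pw] at hc'
    exact_mod_cast hc'
  nlinarith

/-- **The maximal idempotent of a module.** -/
theorem exists_max (Z : 𝒱.Obj) (M : ∀ n, Submodule W.K (W.H (pw X n) →ₗ[W.K] W.H Z))
    (hM : ∀ n, M n ≤ T.Op (pw X n) Z)
    (hst : ∀ m n, ∀ u ∈ T.Op (pw X m) (pw X n), ∀ g ∈ M n, g ∘ₗ u ∈ M m) :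
    ∃ f ∈ T.Op Z Z, f ∘ₗ f = f ∧ (∀ n, ∀ h ∈ T.Op (pw X n) Z, f ∘ₗ h ∈ M n) ∧
      (∀ n, ∀ g ∈ M n, f ∘ₗ g = g) ∧
      LinearMap.range f = ⨆ n, ⨆ g : M n, LinearMap.range (g : W.H (pw X n) →ₗ[W.K] W.H Z) ∧
      ∀ ε : ℝ, 0 < ε → ∃ n₀ : ℕ, ∀ n ≥ n₀,
        (finrank W.K (LinearMap.range f) - ε) * finrank W.K (T.C (pw X n)) ≤
          (dd T f (pw X n) : ℝ) := by
  classical
  set V := ⨆ n, ⨆ g : M n, LinearMap.range (g : W.H (pw X n) →ₗ[W.K] W.H Z) with hV
  have hVmem : ∀ n, ∀ g ∈ M n, LinearMap.range g ≤ V := by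
    intro n g hg
    exact le_iSup_of_le n (le_iSup_of_le ⟨g, hg⟩ le_rfl)
  let Q : ℕ → Prop := fun r => ∃ f ∈ T.Op Z Z, f ∘ₗ f = f ∧
    (∀ n, ∀ h ∈ T.Op (pw X n) Z, f ∘ₗ h ∈ M n) ∧ LinearMap.range f ≤ V ∧
    (∀ ε : ℝ, 0 < ε → ∃ n₀ : ℕ, ∀ n ≥ n₀,
        (finrank W.K (LinearMap.range f) - ε) * finrank W.K (T.C (pw X n)) ≤
          (dd T f (pw X n) : ℝ)) ∧ finrank W.K (LinearMap.range f) = r
  have hQ0 : Q 0 := by
    refine ⟨0, Submodule.zero_mem _, by rw [LinearMap.comp_zero], fun n h _ => ?_, ?_, ?_, ?_⟩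
    · rw [LinearMap.zero_comp]; exact Submodule.zero_mem _
    · rw [LinearMap.range_zero]; exact bot_le
    · intro ε hε
      refine ⟨0, fun n _ => ?_⟩
      rw [LinearMap.range_zero, finrank_bot, Nat.cast_zero, zero_sub]
      have h1 : (0 : ℝ) ≤ finrank W.K (T.C (pw X n)) := Nat.cast_nonneg _
      have h2 : (0 : ℝ) ≤ dd T (0 : Module.End W.K (W.H Z)) (pw X n) := Nat.cast_nonneg _
      nlinarith
    · rw [LinearMap.range_zero, finrank_bot]
  have hQb : ∀ r, Q r → r ≤ finrank W.K (W.H Z) := by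
    rintro r ⟨f, -, -, -, -, -, rfl⟩
    exact Submodule.finrank_le _
  set r₀ := Nat.findGreatest Q (finrank W.K (W.H Z)) with hr₀
  have hr₀Q : Q r₀ := Nat.findGreatest_spec (P := Q) (Nat.zero_le _) hQ0
  obtain ⟨f, hf, hff, hfM, hfV, hflow, hfr⟩ := hr₀Q
  have hmax : ∀ r, Q r → r ≤ r₀ := fun r hr => Nat.le_findGreatest (hQb r hr) hr
  -- `f` is the identity on the images
  have key : ∀ n, ∀ g ∈ M n, f ∘ₗ g = g := by
    intro n g hg
    by_contra hne
    set g₁ : W.H (pw X n) →ₗ[W.K] W.H Z := g - f ∘ₗ g with hg₁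
    have hg₁0 : g₁ ≠ 0 := fun h => hne (sub_eq_zero.1 h).symm
    have hg₁M : g₁ ∈ M n := Submodule.sub_mem _ hg (hfM n g (hM n hg))
    have hfg₁ : f ∘ₗ g₁ = 0 := by
      rw [hg₁, LinearMap.comp_sub, ← LinearMap.comp_assoc, hff, sub_self]
    obtain ⟨ρ, hρ, hρ'⟩ : ∃ ρ ∈ T.Op Z (pw X n), LinearMap.trace W.K _ (ρ ∘ₗ g₁) ≠ 0 := by
      by_contra hcon
      push Not at hcon
      exact hg₁0 (eq_zero_of_trace (hT _) (hM n hg₁M) hcon)
    set x : Module.End W.K (W.H Z) := g₁ ∘ₗ ρ ∘ₗ (1 - f) with hx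
    have h1f : (1 - f : Module.End W.K (W.H Z)) ∈ T.Op Z Z := Submodule.sub_mem _ Op.id hf
    have hxT : x ∈ T.Op Z Z := Op.comp (hM n hg₁M) (Op.comp hρ h1f)
    have hFF : f * f = f := hff
    have hfx : f * x = 0 := by
      change f ∘ₗ g₁ ∘ₗ ρ ∘ₗ (1 - f) = 0
      rw [← LinearMap.comp_assoc, hfg₁, LinearMap.zero_comp]
    have hxf : x * f = 0 := by
      change (g₁ ∘ₗ ρ ∘ₗ (1 - f)) ∘ₗ f = 0
      rw [LinearMap.comp_assoc, LinearMap.comp_assoc]
      have : (1 - f) ∘ₗ f = 0 := by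
        change (1 - f) * f = 0
        rw [sub_mul, one_mul, hFF, sub_self]
      rw [this, LinearMap.comp_zero, LinearMap.comp_zero]
    have hxtr : LinearMap.trace W.K _ x ≠ 0 := by
      have e1 : x = g₁ ∘ₗ ρ - (g₁ ∘ₗ ρ) ∘ₗ f := by
        rw [hx, ← LinearMap.comp_assoc]
        change (g₁ ∘ₗ ρ) * (1 - f) = _
        rw [mul_sub, mul_one]
        rfl
      have e2 : LinearMap.trace W.K _ ((g₁ ∘ₗ ρ) ∘ₗ f) = 0 := by
        rw [LinearMap.trace_comp_comm', ← LinearMap.comp_assoc, hfg₁, LinearMap.zero_comp,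
          map_zero]
      rw [e1, map_sub, e2, sub_zero, LinearMap.trace_comp_comm']
      exact hρ'
    have hxn : ¬ IsNilpotent x := by
      intro h
      exact hxtr (LinearMap.isNilpotent_trace_of_isNilpotent h).eq_zero
    obtain ⟨q, hq1, hq2⟩ := exists_fit x
    set w := aeval x q with hw
    have hwT : w ∈ T.Op Z Z := by
      let X' : Fin 1 → 𝒱.Obj := ![Z]
      exact (T.cat X').aeval_mem (i := 0) hxT q
    have hcomm : w * x = x * w := by
      have : Commute (aeval x q) (aeval x (Polynomial.X : W.K[X])) := by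
        rw [Commute, SemiconjBy, ← map_mul, ← map_mul, mul_comm]
      rw [aeval_X] at this
      exact this
    set π : Module.End W.K (W.H Z) := w * x with hπ
    have hπ0 : π ≠ 0 := fun h => hxn (hq2 h)
    have hππ : π * π = π := hq1
    have hπT : π ∈ T.Op Z Z := Op.comp hwT hxT
    have hfπ : f * π = 0 := by rw [hcomm, ← mul_assoc, hfx, zero_mul]
    have hπf : π * f = 0 := by rw [hπ, mul_assoc, hxf, mul_zero]
    set ρ' : W.H Z →ₗ[W.K] W.H (pw X n) := ρ ∘ₗ (1 - f) ∘ₗ w with hρ'd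
    have hρ'T : ρ' ∈ T.Op Z (pw X n) := Op.comp hρ (Op.comp h1f hwT)
    have hπe : g₁ ∘ₗ ρ' = π := by
      rw [hcomm]
      rfl
    have hle := dd_le_of (hM n hg₁M) hρ'T hπT hππ hπe
    set e : Module.End W.K (W.H (pw X n)) := ρ' ∘ₗ π ∘ₗ g₁ with he
    have hrank : finrank W.K (LinearMap.range (f + π)) = finrank W.K (LinearMap.range f) +
        finrank W.K (LinearMap.range π) := by
      have h1 : (f + π) ∘ₗ (f + π) = f + π := by
        change (f + π) * (f + π) = f + π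
        rw [mul_add, add_mul, add_mul, hFF, hππ, hfπ, hπf, add_zero, zero_add]
      have e1 := Pool.Agent.Y133.Half.trace_idem h1
      have e2 := Pool.Agent.Y133.Half.trace_idem hff
      have e3 := Pool.Agent.Y133.Half.trace_idem (K := W.K) (f := π) hππ
      rw [map_add, e2, e3] at e1
      exact_mod_cast e1.symm
    have hQ' : Q (finrank W.K (LinearMap.range (f + π))) := by
      refine ⟨f + π, Submodule.add_mem _ hf hπT, ?_, ?_, ?_, ?_, rfl⟩
      · change (f + π) * (f + π) = f + π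
        rw [mul_add, add_mul, add_mul, hFF, hππ, hfπ, hπf, add_zero, zero_add]
      · intro m h hh
        rw [LinearMap.add_comp]
        refine Submodule.add_mem _ (hfM m h hh) ?_
        rw [← hπe, LinearMap.comp_assoc]
        exact hst m n _ (Op.comp hρ'T hh) _ hg₁M
      · rintro _ ⟨y, rfl⟩
        rw [LinearMap.add_apply]
        refine Submodule.add_mem _ (hfV ⟨y, rfl⟩) ?_
        rw [← hπe]
        exact hVmem n g₁ hg₁M ⟨_, rfl⟩
      · intro ε hε
        obtain ⟨n₁, h₁⟩ := hflow (ε / 2) (half_pos hε)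
        obtain ⟨n₂, h₂⟩ := dd_low_pw (T := T) hT (hle Z).1 (hle Z).2.1 (half_pos hε)
        refine ⟨n₁ + n₂, fun m hm => ?_⟩
        have h3 := h₁ m (by omega)
        have h4 := h₂ m (by omega)
        have h5 := (hle (pw X m)).2.2.2
        have h6 := (hle Z).2.2.1
        have h7 := dd_add hf hπT hff hππ hfπ hπf (pw X m)
        rw [hrank, h7]
        push_cast
        have h8 : (finrank W.K (LinearMap.range π) : ℝ) ≤ finrank W.K (LinearMap.range e) := by
          exact_mod_cast h6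
        have h9 : (dd T e (pw X m) : ℝ) ≤ dd T π (pw X m) := by exact_mod_cast h5
        have h10 : (0 : ℝ) ≤ finrank W.K (T.C (pw X m)) := Nat.cast_nonneg _
        nlinarith
    have h1 := hmax _ hQ'
    have h2 := Pool.Agent.Y133.Half.Sys.finrank_range_pos hπ0
    omega
  refine ⟨f, hf, hff, hfM, key, ?_, hflow⟩
  apply le_antisymm hfV
  apply iSup_le
  intro n
  apply iSup_le
  rintro ⟨g, hg⟩
  rintro _ ⟨y, rfl⟩
  exact ⟨g y, congrArg (fun F => F y) (key n g hg)⟩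

/-- **The exact index of a module.** -/
theorem exact_index (Z : 𝒱.Obj) (M : ∀ n, Submodule W.K (W.H (pw X n) →ₗ[W.K] W.H Z))
    (hM : ∀ n, M n ≤ T.Op (pw X n) Z)
    (hst : ∀ m n, ∀ u ∈ T.Op (pw X m) (pw X n), ∀ g ∈ M n, g ∘ₗ u ∈ M m) :
    Tendsto (fun n => (finrank W.K (M n) : ℝ) / finrank W.K (T.C (pw X n))) atTop
      (𝓝 (finrank W.K (⨆ n, ⨆ g : M n,
        LinearMap.range (g : W.H (pw X n) →ₗ[W.K] W.H Z) : Submodule W.K (W.H Z)) : ℝ)) := by
  obtain ⟨f, hf, hff, hfM, hid, hV, hlow⟩ := exists_max hT Z M hM hst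
  have h1 : ∀ n, finrank W.K (M n) = dd T f (pw X n) := by
    intro n
    have : M n = (T.Op (pw X n) Z).map (post (pw X n) f) := by
      apply le_antisymm
      · intro g hg
        exact ⟨g, hM n hg, hid n g hg⟩
      · rintro _ ⟨h, hh, rfl⟩
        exact hfM n h hh
    rw [dd, ← this]
  rw [← hV]
  have htpos : ∀ n, 0 < finrank W.K (T.C (pw X n)) := by
    intro n
    have := nontrivial_pw (W := W) (X := X) n
    exact finrank_C_pos T
  rw [Metric.tendsto_atTop]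
  intro ε hε
  obtain ⟨n₁, h₁⟩ := hlow (ε / 2) (half_pos hε)
  obtain ⟨n₂, h₂⟩ := dd_up (X := X) hT hf hff (half_pos hε)
  refine ⟨n₁ + n₂, fun n hn => ?_⟩
  have h3 := h₁ n (by omega)
  have h4 := h₂ n (by omega)
  have h5 : (0 : ℝ) < finrank W.K (T.C (pw X n)) := by exact_mod_cast htpos n
  rw [h1, Real.dist_eq, abs_lt]
  constructor
  · have h6 := (le_div_iff₀ h5).2 h3
    linarith
  · have h6 := (div_le_iff₀ h5).2 h4
    linarith

end

end Pool.Agent.U282.PL
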