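import Pool.Agent.U282.PL.Law
import Pool.Agent.U226.RG.ShareP
import Pool.Agent.Y133.Half.PairPred

/-!
# The exact index of two nondegenerate classes of cohomology classes on the varieties `X^n × Z`
-/

set_option linter.unusedSectionVars false
set_option autoImplicit false

open CategoryTheory AlgebraicGeometry Filter Topology

open scoped ENNReal

universe u v

namespace Pool.Agent.U282.PL

open Module
open Pool.Agent.H914 Pool.Agent.H914.VarClass Pool.Agent.H914.VarClass.Obj
  Pool.Agent.H914.WeilCohomology Pool.Agent.H281R3.HT Pool.Agent.Y133.Half.Sys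
open Pool.Agent.U226.RG (img img_mono predImage img_pred)
open Pool.Agent.Y133.Half (Sys pw ClassPred)

variable {k : Type u} [Field k] {𝒱 : VarClass k} {ops : CycleOps 𝒱}
  {W : WeilCohomology.{u, v} ops} {X Z : 𝒱.Obj} {Q R : ClassPred W}

/-- **The exact index law for two nondegenerate classes of cohomology classes.** -/
theorem pred_pair [Nontrivial (W.H X)] [Nontrivial (W.H Z)] (hQ : ∀ V, Nondeg Q.sys V)
    (hR : ∀ V, Nondeg R.sys V)
    (hQR : ∀ {V : 𝒱.Obj} {j : ℕ} {c : W.H V}, Q.P V j c → R.P V j c) :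
    0 < finrank W.K (predImage Q X Z) ∧
    finrank W.K (predImage Q X Z) ≤ finrank W.K (predImage R X Z) ∧
    ∃ I : ℕ∞, 1 ≤ I ∧
      Tendsto (fun n => (finrank W.K (R.sys.C (pw X n)) : ℝ≥0∞) /
        finrank W.K (Q.sys.C (pw X n))) atTop (𝓝 (I : ℝ≥0∞)) ∧
      (I = 1 ↔ ∀ n, ∀ j c, R.P (pw X n) j c → Q.P (pw X n) j c) ∧
      Tendsto (fun n => (finrank W.K (R.sys.C ((pw X n).prod Z)) : ℝ≥0∞) /
        finrank W.K (Q.sys.C ((pw X n).prod Z))) atTop
        (𝓝 (((I * finrank W.K (predImage R X Z) : ℕ∞) : ℝ≥0∞) /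
          finrank W.K (predImage Q X Z))) ∧
      (I * finrank W.K (predImage R X Z) = finrank W.K (predImage Q X Z) ↔
        ∀ n, ∀ j c, R.P ((pw X n).prod Z) j c → Q.P ((pw X n).prod Z) j c) := by
  have hle : ∀ V, Q.sys.C V ≤ R.sys.C V := fun V => ClassPred.sys_le hQR V
  obtain ⟨I, h1, h2, h3, h4, h5⟩ := pair_law (X := X) (Z := Z) hQ hR hle
  have h6 := img_pos (X := X) (Z := Z) Q.sys
  have h7 : img Q.sys X Z ≤ img R.sys X Z := img_mono hle
  rw [img_pred, img_pred] at h4 h5 h7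
  rw [img_pred] at h6
  refine ⟨h6, Submodule.finrank_mono h7, I, h1, h2, ?_, h4, ?_⟩
  · rw [h3]
    exact forall_congr' fun n => ClassPred.sys_eq_iff hQR _
  · rw [h5]
    exact forall_congr' fun n => ClassPred.sys_eq_iff hQR _

end Pool.Agent.U282.PL
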