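import Pool.Agent.U226.RG.Share
import Pool.Agent.Y133.Half.PairLaw

/-!
# Ratio laws over a nondegenerate system of classes
-/

set_option linter.unusedSectionVars false
set_option autoImplicit false

open CategoryTheory AlgebraicGeometry Filter Topology

universe u v

namespace Pool.Agent.U282.PL

open Module Polynomial
open Pool.Agent.H914 Pool.Agent.H914.VarClass Pool.Agent.H914.VarClass.Obj
  Pool.Agent.H914.WeilCohomology Pool.Agent.H281R3.HT Pool.Agent.Y133.Half.Sys
open Pool.Agent.U226.RG (HasIndex HasIndex.sum finrank_steps finrank_Op a_up_even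
  nontrivial_pw finrank_C_pos tendsto_shift a_eq_finrank nontrivial_prod)
open Pool.Agent.Y133.Half (Sys pw pwAdd finrank_pw prodComm prodCongr ratio_dichotomy)

variable {k : Type u} [Field k] {𝒱 : VarClass k} {ops : CycleOps 𝒱}
  {W : WeilCohomology.{u, v} ops} {X Y Z P Q N : 𝒱.Obj} {S T : Sys W}

/-- **The ratio law for modules** over a nondegenerate system: spaces of linear maps from a fixed
space to the cohomology of the powers of `X` which are stable under composition with the operators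
of the system. -/
theorem module_law [Nontrivial (W.H X)] (hS : ∀ n, Nondeg S (pw X n)) {U : Type v}
    [AddCommGroup U] [Module W.K U] [FiniteDimensional W.K U]
    {M : ∀ n, Submodule W.K (U →ₗ[W.K] W.H (pw X n))}
    (hM : ∀ m n, ∀ f ∈ S.Op (pw X m) (pw X n), ∀ g ∈ M m, f ∘ₗ g ∈ M n) :
    HasIndex (fun n => finrank W.K (M n)) (fun n => finrank W.K (S.C (pw X n))) := by
  set e := Module.finBasis W.K U with he
  have h0 : ∀ n, (M n ⊓ ⨅ l : Fin (finrank W.K U), LinearMap.ker (LinearMap.applyₗ (R := W.K)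
      (M₂ := W.H (pw X n)) (e ⟨l, lt_of_lt_of_le l.2 le_rfl⟩)) :
        Submodule W.K (U →ₗ[W.K] W.H (pw X n))) = ⊥ := by
    intro n
    rw [eq_bot_iff]
    rintro f ⟨-, hf⟩
    rw [Submodule.mem_bot]
    apply e.ext
    intro i
    rw [SetLike.mem_coe, Submodule.mem_iInf] at hf
    exact hf i
  have h1 : ∀ n, finrank W.K (M n) = ∑ j : Fin (finrank W.K U), finrank W.K
      ((M n ⊓ ⨅ l : Fin j, LinearMap.ker (LinearMap.applyₗ (R := W.K)
        (M₂ := W.H (pw X n))
          (e ⟨l, lt_of_lt_of_le (l.2.trans j.2) le_rfl⟩))).map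
            (LinearMap.applyₗ (R := W.K) (M₂ := W.H (pw X n))
              (e ⟨j, lt_of_lt_of_le j.2 le_rfl⟩))) := by
    intro n
    rw [finrank_steps (fun i => e i) (M n) (finrank W.K U) le_rfl, h0 n, finrank_bot, add_zero]
  simp only [h1]
  apply HasIndex.sum
  intro j _
  have key := stab_law (S := S) (X := X) hS
    (G := fun n => (M n ⊓ ⨅ l : Fin j, LinearMap.ker (LinearMap.applyₗ (R := W.K)
        (M₂ := W.H (pw X n))
          (e ⟨l, lt_of_lt_of_le (l.2.trans j.2) le_rfl⟩))).map
            (LinearMap.applyₗ (R := W.K) (M₂ := W.H (pw X n))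
              (e ⟨j, lt_of_lt_of_le j.2 le_rfl⟩))) (by
    rintro m n f hf _ ⟨g, ⟨hg, hg'⟩, rfl⟩
    refine ⟨f ∘ₗ g, ⟨hM m n f hf g hg, ?_⟩, rfl⟩
    rw [SetLike.mem_coe, Submodule.mem_iInf] at hg' ⊢
    intro l
    have h2 : g (e ⟨l, lt_of_lt_of_le (l.2.trans j.2) le_rfl⟩) = 0 := hg' l
    rw [LinearMap.mem_ker]
    change f (g (e _)) = 0
    rw [h2, map_zero])
  rcases key with ⟨N, -, h⟩ | h
  · exact Or.inl ⟨N, h⟩
  · exact Or.inr h

lemma finrank_pos' [Nontrivial (W.H X)] (T : Sys W) (n : ℕ) : 0 < finrank W.K (T.C (pw X n)) := by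
  have := nontrivial_pw (W := W) (X := X) n
  exact finrank_C_pos T

/-- The quotients of the dimensions of the spaces of classes on the powers tend to the sum of the
Betti numbers, for every nondegenerate system. -/
theorem tendsto_sys [Nontrivial (W.H X)] (hS : ∀ n, Nondeg S (pw X n)) :
    Tendsto (fun n => (finrank W.K (S.C (pw X (n + 1))) : ℝ) / finrank W.K (S.C (pw X n))) atTop
      (𝓝 (finrank W.K (W.H X) : ℝ)) := by
  set b := finrank W.K (W.H X) with hb
  have htpos : ∀ n, 0 < finrank W.K (S.C (pw X n)) := finrank_pos' S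
  have hM := module_law (X := X) hS (U := W.H X) (M := fun n => S.Op X (pw X n))
    (fun m n f hf g hg => Op.comp hf hg)
  have hfr : ∀ n, finrank W.K (S.Op X (pw X n)) = finrank W.K (S.C (pw X (n + 1))) := by
    intro n
    rw [finrank_Op]
    exact S.finrank_C_iso (prodComm X (pw X n))
  simp only [hfr] at hM
  have hX : 0 < b := Module.finrank_pos
  have hup : ∀ l, finrank W.K (S.C (pw X (l + l + 1 + 1))) ≤
      b * finrank W.K (S.C (pw X (l + l + 1))) := by
    intro l
    have h := a_up_even S X X l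
    rw [a_eq_finrank (hS _)] at h
    have h2 : S.a ((pw X (l + l + 1)).prod X) = finrank W.K (S.C (pw X (l + l + 1 + 1))) :=
      a_eq_finrank (hS (l + l + 1 + 1))
    rw [h2] at h
    exact h
  have hsub : Tendsto (fun l : ℕ => l + l + 1) atTop atTop :=
    tendsto_atTop_mono (fun n => by simp only [id]; omega) tendsto_id
  obtain ⟨d, h8⟩ : ∃ d : ℕ, Tendsto (fun n => (finrank W.K (S.C (pw X (n + 1))) : ℝ) /
      finrank W.K (S.C (pw X n))) atTop (𝓝 (d : ℝ)) := by
    rcases hM with h | h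
    · exact h
    · exfalso
      obtain ⟨l, hl⟩ := (tendsto_atTop.1 (h.comp hsub) ((b : ℝ) + 1)).exists
      have h2 : (finrank W.K (S.C (pw X (l + l + 1 + 1))) : ℝ) /
          finrank W.K (S.C (pw X (l + l + 1))) ≤ b := by
        rw [div_le_iff₀ (by exact_mod_cast htpos _)]
        exact_mod_cast hup l
      have h3 : ((b : ℝ) + 1) ≤ (finrank W.K (S.C (pw X (l + l + 1 + 1))) : ℝ) /
          finrank W.K (S.C (pw X (l + l + 1))) := hl
      linarith
  have hdb : (d : ℝ) ≤ b := by
    refine le_of_tendsto' (h8.comp hsub) fun l => ?_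
    change (finrank W.K (S.C (pw X (l + l + 1 + 1))) : ℝ) /
      finrank W.K (S.C (pw X (l + l + 1))) ≤ _
    rw [div_le_iff₀ (by exact_mod_cast htpos _)]
    exact_mod_cast hup l
  have hal : ∀ l, S.al X l = finrank W.K (S.C (pw X (l + l + 1))) := by
    intro l
    rw [← a_eq_finrank (hS _)]
    exact S.a_iso (pwAdd X l l)
  have hpos : ∀ n, 0 < S.al X n := by
    intro n
    rw [hal]
    exact htpos _
  have hB : ∀ c : ℝ, 0 ≤ c → c < (b : ℝ) ^ 2 → ∃ l₀, ∀ l ≥ l₀,
      c * S.al X l ≤ S.al X (l + 1) := by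
    rcases ratio_dichotomy hpos (S.al_convex X) ((b : ℝ) ^ 2) with ⟨c, hc, hcB, h⟩ | hB
    · exfalso
      obtain ⟨n₀, hn₀⟩ := small_of (T := S) hc hcB h hX (ε := 1 / 2) (by positivity)
      have h2 := hn₀ n₀ le_rfl
      rw [a_eq_finrank (hS _)] at h2
      have h4 : (0 : ℝ) < finrank W.K (S.C (pw X n₀)) := by exact_mod_cast htpos n₀
      linarith
    · exact hB
  have hd : (d : ℝ) = b := by
    apply le_antisymm hdb
    by_contra hcon
    push Not at hcon
    have hd2 : (d : ℝ) ^ 2 < (b : ℝ) ^ 2 := by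
      have : (0 : ℝ) ≤ d := Nat.cast_nonneg d
      nlinarith
    obtain ⟨c, hc1, hc2⟩ := exists_between hd2
    have hc0 : 0 ≤ c := (sq_nonneg _).trans hc1.le
    obtain ⟨l₀, hl₀⟩ := hB c hc0 hc2
    have h9 := tendsto_shift htpos h8 2
    have h10 := h9.comp hsub
    have h11 : c ≤ (d : ℝ) ^ 2 := by
      refine ge_of_tendsto h10 (eventually_atTop.2 ⟨l₀, fun l hl => ?_⟩)
      change c ≤ (finrank W.K (S.C (pw X (l + l + 1 + 2))) : ℝ) /
        finrank W.K (S.C (pw X (l + l + 1)))
      rw [le_div_iff₀ (by exact_mod_cast htpos _)]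
      have h12 := hl₀ l hl
      rw [hal, hal] at h12
      have e : l + 1 + (l + 1) + 1 = l + l + 1 + 2 := by omega
      rw [e] at h12
      exact h12
    linarith
  rw [hd] at h8
  exact h8

end Pool.Agent.U282.PL
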